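import Mathlib.Order.Lattice.Nat
import Mathlib.Data.Set.Card
import Mathlib.Combinatorics.SimpleGraph.Connectivity.Connected
import Mathlib.Order.CompletePartialOrder

/-!
Graph minors, edge-maximal graphs with no minor in a family, and the edge-count gap.
-/

set_option autoImplicit false

namespace Pool.Agent.MP_9d78a0_co

/-- `H` is a minor of `G`: there are pairwise disjoint connected branch sets, one for each vertex
of `H`, with an edge of `G` between the branch sets of any two adjacent vertices of `H`. -/
def IsMinor {W V : Type} (H : SimpleGraph W) (G : SimpleGraph V) : Prop :=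
  ∃ B : W → Set V, (∀ w, (G.induce (B w)).Connected) ∧
    (∀ w w', w ≠ w' → Disjoint (B w) (B w')) ∧
    ∀ w w', H.Adj w w' → ∃ u ∈ B w, ∃ v ∈ B w', G.Adj u v

/-- A family of finite graphs. -/
abbrev Family : Type := Set (Σ k : ℕ, SimpleGraph (Fin k))

/-- No graph of the family is a minor of `G`. -/
def Free (F : Family) {V : Type} (G : SimpleGraph V) : Prop :=
  ∀ H ∈ F, ¬ IsMinor H.2 G

/-- `G` is free, and adding any new edge creates a minor in the family. -/
def EdgeMax (F : Family) {V : Type} (G : SimpleGraph V) : Prop :=
  Free F G ∧ ∀ u v, u ≠ v → ¬ G.Adj u v → ¬ Free F (G ⊔ SimpleGraph.edge u v)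

/-- The numbers of edges of edge-maximal free graphs on `n` vertices. -/
def edgeCounts (F : Family) (n : ℕ) : Set ℕ :=
  {m | ∃ G : SimpleGraph (Fin n), EdgeMax F G ∧ G.edgeSet.ncard = m}

/-- The least number of edges of an edge-maximal free graph on `n` vertices. -/
noncomputable def Mminus (F : Family) (n : ℕ) : ℕ := sInf (edgeCounts F n)

/-- The largest number of edges of an edge-maximal free graph on `n` vertices. -/
noncomputable def Mplus (F : Family) (n : ℕ) : ℕ := sSup (edgeCounts F n)

/-- The gap between the largest and the least number of edges. -/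
noncomputable def gap (F : Family) (n : ℕ) : ℕ := Mplus F n - Mminus F n

end Pool.Agent.MP_9d78a0_co
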