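import Mathlib.Data.Finite.Sum
import Mathlib.Topology.Sheaves.Presheaf
import Mathlib.Tactic.Monotonicity.Lemmas
import Mathlib.Data.Int.Star
import Mathlib.Algebra.Order.Ring.Star
import Mathlib.Tactic.Bound
import Mathlib.Algebra.Order.Star.Real
import Mathlib.Analysis.Subadditive
import Mathlib.Combinatorics.SimpleGraph.DegreeSum
import Mathlib.Combinatorics.SimpleGraph.Sum
import Mathlib.Tactic.Algebra.Basic
import Pool.Agent.MP_9d78a0_co.Defs

-- ======== part 0: formerly Pool.Agent.MP_9d78a0_co.Basic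
section MrgPart0

/-!
Basic facts on minors.
-/

set_option autoImplicit false

namespace Pool.Agent.MP_9d78a0_co

open Relation

variable {U V W : Type}

/-- Walks inside a set. -/
def Link (G : SimpleGraph V) (S : Set V) (u v : V) : Prop :=
  ReflTransGen (fun a b => a ∈ S ∧ b ∈ S ∧ G.Adj a b) u v

/-- Working form of connectivity of a vertex set. -/
def Conn (G : SimpleGraph V) (S : Set V) : Prop :=
  S.Nonempty ∧ ∀ u ∈ S, ∀ v ∈ S, Link G S u v

theorem Link.refl (G : SimpleGraph V) (S : Set V) (u : V) : Link G S u u := ReflTransGen.refl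

theorem Link.trans {G : SimpleGraph V} {S : Set V} {u v w : V} (h : Link G S u v)
    (h' : Link G S v w) : Link G S u w := ReflTransGen.trans h h'

theorem Link.single {G : SimpleGraph V} {S : Set V} {u v : V} (hu : u ∈ S) (hv : v ∈ S)
    (h : G.Adj u v) : Link G S u v := ReflTransGen.single ⟨hu, hv, h⟩

theorem Link.symm {G : SimpleGraph V} {S : Set V} {u v : V} (h : Link G S u v) :
    Link G S v u := by
  induction h with
  | refl => exact Link.refl _ _ _
  | tail _ hbc ih => exact (Link.single hbc.2.1 hbc.1 hbc.2.2.symm).trans ih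

theorem Link.map {G : SimpleGraph V} {G' : SimpleGraph U} {S : Set V} {T : Set U} (f : V → U)
    (hf : ∀ a ∈ S, ∀ b ∈ S, G.Adj a b → Link G' T (f a) (f b)) {u v : V} (h : Link G S u v) :
    Link G' T (f u) (f v) := by
  induction h with
  | refl => exact Link.refl _ _ _
  | tail _ hbc ih => exact ih.trans (hf _ hbc.1 _ hbc.2.1 hbc.2.2)

theorem Link.mono {G : SimpleGraph V} {S T : Set V} (hST : S ⊆ T) {u v : V} (h : Link G S u v) :
    Link G T u v :=
  Link.map (G' := G) id (fun _ ha _ hb hab => Link.single (hST ha) (hST hb) hab) h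

theorem Link.mem {G : SimpleGraph V} {S : Set V} {u v : V} (h : Link G S u v) (hu : u ∈ S) :
    v ∈ S := by
  induction h with
  | refl => exact hu
  | tail _ hbc _ => exact hbc.2.1

theorem conn_iff (G : SimpleGraph V) (S : Set V) : (G.induce S).Connected ↔ Conn G S := by
  constructor
  · intro h
    refine ⟨?_, ?_⟩
    · obtain ⟨x⟩ := h.nonempty
      exact ⟨x.1, x.2⟩
    · intro u hu v hv
      have h1 := h.preconnected ⟨u, hu⟩ ⟨v, hv⟩
      rw [SimpleGraph.reachable_iff_reflTransGen] at h1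
      have key : ∀ x y : S, ReflTransGen (G.induce S).Adj x y → Link G S x.1 y.1 := by
        intro x y hxy
        induction hxy with
        | refl => exact Link.refl _ _ _
        | @tail b c _ hbc ih => exact ih.trans (Link.single b.2 c.2 hbc)
      exact key _ _ h1
  · rintro ⟨⟨x, hx⟩, h⟩
    have : Nonempty S := ⟨⟨x, hx⟩⟩
    refine ⟨fun u v => ?_⟩
    have key : ∀ a b : V, Link G S a b → ∀ (ha : a ∈ S) (hb : b ∈ S),
        (G.induce S).Reachable ⟨a, ha⟩ ⟨b, hb⟩ := by
      intro a b hab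
      induction hab with
      | refl => intro _ _; exact SimpleGraph.Reachable.refl _
      | @tail b c _ hbc ih =>
        intro ha hc
        exact (ih ha hbc.1).trans (SimpleGraph.Adj.reachable (G := G.induce S) hbc.2.2)
    exact key _ _ (h _ u.2 _ v.2) u.2 v.2

theorem conn_singleton (G : SimpleGraph V) (v : V) : Conn G {v} := by
  refine ⟨⟨v, rfl⟩, ?_⟩
  rintro a rfl b rfl
  exact Link.refl _ _ _

/-- A model of `H` in `G` inside the vertex set `S`. -/
def Model (H : SimpleGraph W) (G : SimpleGraph V) (S : Set V) (B : W → Set V) : Prop :=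
  (∀ w, B w ⊆ S) ∧ (∀ w, Conn G (B w)) ∧ (∀ w w', w ≠ w' → Disjoint (B w) (B w')) ∧
    ∀ w w', H.Adj w w' → ∃ u ∈ B w, ∃ v ∈ B w', G.Adj u v

theorem isMinor_iff (H : SimpleGraph W) (G : SimpleGraph V) :
    IsMinor H G ↔ ∃ B, Model H G Set.univ B := by
  simp only [IsMinor, Model, conn_iff, Set.subset_univ, implies_true, true_and]

theorem Model.isMinor {H : SimpleGraph W} {G : SimpleGraph V} {S : Set V} {B : W → Set V}
    (h : Model H G S B) : IsMinor H G :=
  (isMinor_iff H G).2 ⟨B, fun _ => Set.subset_univ _, h.2⟩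

/-- Composition of a model with a set-valued map on the set that carries the model. -/
theorem Model.comp {H : SimpleGraph W} {G : SimpleGraph V} {G' : SimpleGraph U} {S : Set V}
    {T : Set U} {B : W → Set V} (h : Model H G S B) (C : V → Set U) (hT : ∀ v ∈ S, C v ⊆ T)
    (hc : ∀ v ∈ S, Conn G' (C v))
    (hd : ∀ v ∈ S, ∀ v' ∈ S, v ≠ v' → Disjoint (C v) (C v'))
    (ha : ∀ v ∈ S, ∀ v' ∈ S, G.Adj v v' → ∃ x ∈ C v, ∃ y ∈ C v', G'.Adj x y) :
    Model H G' T (fun w => ⋃ v ∈ B w, C v) := by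
  obtain ⟨hS, hconn, hdis, hadj⟩ := h
  refine ⟨?_, ?_, ?_, ?_⟩
  · intro w x hx
    simp only [Set.mem_iUnion] at hx
    obtain ⟨v, hv, hx⟩ := hx
    exact hT v (hS w hv) hx
  · intro w
    have hsub : ∀ v ∈ B w, C v ⊆ ⋃ v ∈ B w, C v := fun v hv =>
      Set.subset_biUnion_of_mem (u := fun v => C v) hv
    refine ⟨?_, ?_⟩
    · obtain ⟨v, hv⟩ := (hconn w).1
      obtain ⟨x, hx⟩ := (hc v (hS w hv)).1
      exact ⟨x, hsub v hv hx⟩
    · have key : ∀ v v', Link G (B w) v v' → v ∈ B w → ∀ x ∈ C v, ∀ y ∈ C v',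
          Link G' (⋃ v ∈ B w, C v) x y := by
        intro v v' hvv
        induction hvv with
        | refl =>
          intro hv x hx y hy
          exact ((hc v (hS w hv)).2 x hx y hy).mono (hsub v hv)
        | @tail b c _ hbc ih =>
          intro hv x hx y hy
          obtain ⟨p, hp, q, hq, hpq⟩ := ha b (hS w hbc.1) c (hS w hbc.2.1) hbc.2.2
          refine (ih hv x hx p hp).trans ((Link.single (hsub b hbc.1 hp) (hsub c hbc.2.1 hq)
            hpq).trans ?_)
          exact ((hc c (hS w hbc.2.1)).2 q hq y hy).mono (hsub c hbc.2.1)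
      intro x hx y hy
      simp only [Set.mem_iUnion] at hx hy
      obtain ⟨v, hv, hx⟩ := hx
      obtain ⟨v', hv', hy⟩ := hy
      exact key v v' ((hconn w).2 v hv v' hv') hv x hx y hy
  · intro w w' hww
    rw [Set.disjoint_left]
    intro x hx hx'
    simp only [Set.mem_iUnion] at hx hx'
    obtain ⟨v, hv, hx⟩ := hx
    obtain ⟨v', hv', hx'⟩ := hx'
    have hne : v ≠ v' := by
      rintro rfl
      exact Set.disjoint_left.1 (hdis w w' hww) hv hv'
    exact Set.disjoint_left.1 (hd v (hS w hv) v' (hS w' hv') hne) hx hx'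
  · intro w w' hww
    obtain ⟨u, hu, v, hv, huv⟩ := hadj w w' hww
    obtain ⟨x, hx, y, hy, hxy⟩ := ha u (hS w hu) v (hS w' hv) huv
    refine ⟨x, ?_, y, ?_, hxy⟩
    · simp only [Set.mem_iUnion]; exact ⟨u, hu, hx⟩
    · simp only [Set.mem_iUnion]; exact ⟨v, hv, hy⟩

/-- Transport of a model along a map that is injective and edge preserving on the carrier. -/
theorem Model.map {H : SimpleGraph W} {G : SimpleGraph V} {G' : SimpleGraph U} {S : Set V}
    {B : W → Set V} (h : Model H G S B) (f : V → U) (hf : Set.InjOn f S)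
    (ha : ∀ v ∈ S, ∀ v' ∈ S, G.Adj v v' → G'.Adj (f v) (f v')) : IsMinor H G' := by
  refine (h.comp (T := Set.univ) (fun v => {f v}) (fun _ _ => Set.subset_univ _)
    (fun v _ => conn_singleton _ _) ?_ ?_).isMinor
  · intro v hv v' hv' hne
    rw [Set.disjoint_singleton]
    exact fun h => hne (hf hv hv' h)
  · intro v hv v' hv' hvv
    exact ⟨_, rfl, _, rfl, ha v hv v' hv' hvv⟩

theorem IsMinor.trans {H : SimpleGraph W} {G : SimpleGraph V} {G' : SimpleGraph U}
    (h : IsMinor H G) (h' : IsMinor G G') : IsMinor H G' := by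
  obtain ⟨B, hB⟩ := (isMinor_iff _ _).1 h
  obtain ⟨C, hC⟩ := (isMinor_iff _ _).1 h'
  exact (hB.comp (T := Set.univ) C (fun _ _ => Set.subset_univ _) (fun v _ => hC.2.1 v)
    (fun v _ v' _ => hC.2.2.1 v v') (fun v _ v' _ => hC.2.2.2 v v')).isMinor

theorem isMinor_of_inj {G : SimpleGraph V} {G' : SimpleGraph U} (f : V → U)
    (hf : Function.Injective f) (ha : ∀ v v', G.Adj v v' → G'.Adj (f v) (f v')) :
    IsMinor G G' := by
  refine (isMinor_iff _ _).2 ⟨fun v => {f v}, fun _ => Set.subset_univ _,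
    fun v => conn_singleton _ _, ?_, ?_⟩
  · intro v v' hne
    rw [Set.disjoint_singleton]
    exact fun h => hne (hf h)
  · intro v v' hvv
    exact ⟨_, rfl, _, rfl, ha v v' hvv⟩

theorem Free.of_minor {F : Family} {G : SimpleGraph V} {G' : SimpleGraph U} (h : Free F G')
    (hm : IsMinor G G') : Free F G := fun H hH hHG => h H hH (hHG.trans hm)

theorem Free.of_inj {F : Family} {G : SimpleGraph V} {G' : SimpleGraph U} (h : Free F G')
    (f : V → U) (hf : Function.Injective f) (ha : ∀ v v', G.Adj v v' → G'.Adj (f v) (f v')) :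
    Free F G := h.of_minor (isMinor_of_inj f hf ha)

theorem Free.mono {F : Family} {G G' : SimpleGraph V} (h : Free F G') (hle : G ≤ G') :
    Free F G := h.of_inj id Function.injective_id (fun _ _ h => hle h)

/-- A model of a connected graph lies in one part of a partition with no edges between parts. -/
theorem exists_model_part {I : Type} {H : SimpleGraph W} (hH : H.Connected) {G : SimpleGraph V}
    (p : V → I) (hp : ∀ a b, G.Adj a b → p a = p b) (h : IsMinor H G) :
    ∃ i B, Model H G {v | p v = i} B := by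
  obtain ⟨B, hB⟩ := (isMinor_iff _ _).1 h
  obtain ⟨w0⟩ := hH.nonempty
  obtain ⟨x0, hx0⟩ := (hB.2.1 w0).1
  have hl : ∀ (S : Set V) a b, Link G S a b → p a = p b := by
    intro S a b hab
    induction hab with
    | refl => rfl
    | tail _ hbc ih => exact ih.trans (hp _ _ hbc.2.2)
  have hin : ∀ w, ∀ a ∈ B w, ∀ b ∈ B w, p a = p b := fun w a ha b hb =>
    hl _ _ _ ((hB.2.1 w).2 a ha b hb)
  have key : ∀ w, ReflTransGen H.Adj w0 w → ∀ a ∈ B w, p a = p x0 := by
    intro w hw
    induction hw with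
    | refl => intro a ha; exact hin _ _ ha _ hx0
    | @tail b c _ hbc ih =>
      intro a ha
      obtain ⟨u, hu, v, hv, huv⟩ := hB.2.2.2 b c hbc
      rw [hin _ _ ha _ hv, ← hp _ _ huv]
      exact ih u hu
  refine ⟨p x0, B, ?_, hB.2⟩
  intro w a ha
  exact key w ((SimpleGraph.reachable_iff_reflTransGen _ _).1 (hH.preconnected w0 w)) a ha

/-- Every free graph on a finite vertex set is contained in an edge-maximal one. -/
theorem exists_edgeMax {F : Family} [Finite V] {G : SimpleGraph V} (h : Free F G) :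
    ∃ G', G ≤ G' ∧ EdgeMax F G' := by
  obtain ⟨G', hG', hmax⟩ := Set.Finite.exists_maximal (s := {G' | G ≤ G' ∧ Free F G'})
    (Set.toFinite _) ⟨G, le_rfl, h⟩
  refine ⟨G', hG'.1, hG'.2, fun u v huv hn hf => hn ?_⟩
  have := hmax (y := G' ⊔ SimpleGraph.edge u v) ⟨hG'.1.trans le_sup_left, hf⟩ le_sup_left
  apply this
  right
  rw [SimpleGraph.edge_adj]
  exact ⟨Or.inl ⟨rfl, rfl⟩, huv⟩

/-- Number of ordered adjacent pairs. -/
noncomputable def dd (G : SimpleGraph V) : ℕ := {p : V × V | G.Adj p.1 p.2}.ncard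

theorem dd_eq_sum [Fintype V] (G : SimpleGraph V) :
    dd G = ∑ v, (G.neighborSet v).ncard := by
  classical
  have h1 : {p : V × V | G.Adj p.1 p.2} =
      ((Finset.univ.filter fun p : V × V => G.Adj p.1 p.2 : Finset (V × V)) : Set (V × V)) := by
    ext p; simp
  rw [dd, h1, Set.ncard_coe_finset, Finset.card_filter, Fintype.sum_prod_type]
  refine Finset.sum_congr rfl fun v _ => ?_
  rw [← Finset.card_filter]
  have h2 : G.neighborSet v = ((Finset.univ.filter fun b => G.Adj v b : Finset V) : Set V) := by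
    ext b; simp
  rw [h2, Set.ncard_coe_finset]

theorem dd_eq_two_mul [Finite V] (G : SimpleGraph V) : dd G = 2 * G.edgeSet.ncard := by
  classical
  have := Fintype.ofFinite V
  rw [dd_eq_sum, ← SimpleGraph.coe_edgeFinset, Set.ncard_coe_finset,
    ← SimpleGraph.sum_degrees_eq_twice_card_edges]
  refine Finset.sum_congr rfl fun v _ => ?_
  rw [← SimpleGraph.card_neighborFinset_eq_degree, ← Set.ncard_coe_finset,
    SimpleGraph.coe_neighborFinset]

theorem dd_le_of_inj [Finite U] {G : SimpleGraph V} {G' : SimpleGraph U} (f : V → U)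
    (hf : Function.Injective f) (ha : ∀ v v', G.Adj v v' → G'.Adj (f v) (f v')) :
    dd G ≤ dd G' := by
  refine Set.ncard_le_ncard_of_injOn (Prod.map f f) (fun p hp => ha _ _ hp) ?_ (Set.toFinite _)
  exact (hf.prodMap hf).injOn

theorem EdgeMax.comap {F : Family} {G : SimpleGraph V} (h : EdgeMax F G) (e : U ≃ V) :
    EdgeMax F (G.comap e) := by
  refine ⟨h.1.of_inj e e.injective (fun _ _ h => h), fun u v huv hn hf => ?_⟩
  refine h.2 (e u) (e v) (fun h => huv (e.injective h)) hn (hf.of_inj e.symm e.symm.injective ?_)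
  intro a b hab
  rcases hab with hab | hab
  · left; simpa using hab
  · right
    rw [SimpleGraph.edge_adj] at hab ⊢
    refine ⟨?_, fun h => hab.2 (e.symm.injective h)⟩
    rcases hab.1 with ⟨rfl, rfl⟩ | ⟨rfl, rfl⟩ <;> simp

theorem dd_comap [Finite V] (G : SimpleGraph V) (e : U ≃ V) : dd (G.comap e) = dd G := by
  have : Finite U := Finite.of_equiv _ e.symm
  refine le_antisymm (dd_le_of_inj e e.injective fun _ _ h => h)
    (dd_le_of_inj e.symm e.symm.injective fun a b h => by simpa using h)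

theorem mem_edgeCounts {F : Family} [Finite V] {G : SimpleGraph V} (h : EdgeMax F G) :
    ∃ m ∈ edgeCounts F (Nat.card V), 2 * m = dd G := by
  refine ⟨_, ⟨G.comap (Finite.equivFin V).symm, h.comap _, rfl⟩, ?_⟩
  rw [← dd_eq_two_mul, dd_comap]

theorem two_Mminus_le {F : Family} [Finite V] {G : SimpleGraph V} (h : EdgeMax F G) :
    2 * Mminus F (Nat.card V) ≤ dd G := by
  obtain ⟨m, hm, he⟩ := mem_edgeCounts h
  have : Mminus F (Nat.card V) ≤ m := Nat.sInf_le hm
  omega

theorem edgeCounts_finite (F : Family) (n : ℕ) : (edgeCounts F n).Finite := by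
  have : edgeCounts F n ⊆ Set.range fun G : SimpleGraph (Fin n) => G.edgeSet.ncard := by
    rintro m ⟨G, -, rfl⟩
    exact ⟨G, rfl⟩
  exact (Set.finite_range _).subset this

theorem le_two_Mplus {F : Family} [Finite V] {G : SimpleGraph V} (h : Free F G) :
    dd G ≤ 2 * Mplus F (Nat.card V) := by
  obtain ⟨G', hle, hG'⟩ := exists_edgeMax h
  obtain ⟨m, hm, he⟩ := mem_edgeCounts hG'
  have h1 : m ≤ Mplus F (Nat.card V) := le_csSup (edgeCounts_finite F _).bddAbove hm
  have h2 : dd G ≤ dd G' := dd_le_of_inj id Function.injective_id fun _ _ h => hle h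
  omega

theorem free_bot {F : Family} (hF : ∀ H ∈ F, H.2 ≠ ⊥) : Free F (⊥ : SimpleGraph V) := by
  intro H hH hm
  obtain ⟨B, hB⟩ := (isMinor_iff _ _).1 hm
  apply hF H hH
  ext a b
  simp only [SimpleGraph.bot_adj, iff_false]
  intro hab
  obtain ⟨u, -, v, -, huv⟩ := hB.2.2.2 a b hab
  exact huv

theorem edgeCounts_nonempty {F : Family} (hF : ∀ H ∈ F, H.2 ≠ ⊥) (n : ℕ) :
    (edgeCounts F n).Nonempty := by
  obtain ⟨G, -, hG⟩ := exists_edgeMax (free_bot (V := Fin n) hF)
  exact ⟨_, G, hG, rfl⟩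

theorem exists_Mminus {F : Family} (hF : ∀ H ∈ F, H.2 ≠ ⊥) (n : ℕ) :
    ∃ G : SimpleGraph (Fin n), EdgeMax F G ∧ dd G = 2 * Mminus F n := by
  obtain ⟨G, hG, he⟩ := Nat.sInf_mem (edgeCounts_nonempty hF n)
  exact ⟨G, hG, by rw [dd_eq_two_mul, he]; rfl⟩

theorem exists_Mplus {F : Family} (hF : ∀ H ∈ F, H.2 ≠ ⊥) (n : ℕ) :
    ∃ G : SimpleGraph (Fin n), EdgeMax F G ∧ dd G = 2 * Mplus F n := by
  obtain ⟨G, hG, he⟩ := (edgeCounts_nonempty hF n).csSup_mem (edgeCounts_finite F n)
  exact ⟨G, hG, by rw [dd_eq_two_mul, he]; rfl⟩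

theorem Mminus_le_Mplus {F : Family} (hF : ∀ H ∈ F, H.2 ≠ ⊥) (n : ℕ) :
    Mminus F n ≤ Mplus F n :=
  le_csSup (edgeCounts_finite F n).bddAbove (Nat.sInf_mem (edgeCounts_nonempty hF n))

end Pool.Agent.MP_9d78a0_co

end MrgPart0

-- ======== part 1: formerly Pool.Agent.MP_9d78a0_co.Mader
section MrgPart1

/-!
A linear bound on the number of edges of graphs without a complete minor (Mader).
-/

set_option autoImplicit false

namespace Pool.Agent.MP_9d78a0_co

open Relation

variable {U V W : Type}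

theorem Model.subset_support {h : ℕ} {G : SimpleGraph V} {S : Set V} {B : Fin (h + 2) → Set V}
    (hB : Model (⊤ : SimpleGraph (Fin (h + 2))) G S B) : Model ⊤ G G.support B := by
  refine ⟨fun w x hx => ?_, hB.2⟩
  obtain ⟨w', hw'⟩ := exists_ne w
  obtain ⟨u, hu, v, -, huv⟩ := hB.2.2.2 w w' (by simpa using hw'.symm)
  rcases ReflTransGen.cases_head ((hB.2.1 w).2 x hx u hu) with rfl | ⟨c, hc, -⟩
  · exact ⟨v, huv⟩
  · exact ⟨c, hc.2.2⟩

/-- Contraction of `y` into `x`, leaving `y` isolated. -/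
def contr (G : SimpleGraph V) (x y : V) : SimpleGraph V where
  Adj a b := a ≠ b ∧ a ≠ y ∧ b ≠ y ∧ (G.Adj a b ∨ (a = x ∧ G.Adj y b) ∨ (b = x ∧ G.Adj a y))
  symm := ⟨by
    rintro a b ⟨h1, h2, h3, h4⟩
    refine ⟨h1.symm, h3, h2, ?_⟩
    rcases h4 with h | h | h
    · exact Or.inl h.symm
    · exact Or.inr (Or.inr ⟨h.1, h.2.symm⟩)
    · exact Or.inr (Or.inl ⟨h.1, h.2.symm⟩)⟩
  loopless := ⟨fun a h => h.1 rfl⟩

theorem contr_support {G : SimpleGraph V} {x y : V} (hxy : G.Adj x y) :
    (contr G x y).support ⊆ G.support \ {y} := by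
  rintro a ⟨b, h1, h2, h3, h4⟩
  refine ⟨?_, h2⟩
  rcases h4 with h | h | h
  · exact ⟨b, h⟩
  · exact ⟨y, h.1 ▸ hxy⟩
  · exact ⟨y, h.2⟩

theorem conn_pair {G : SimpleGraph V} {x y : V} (hxy : G.Adj x y) : Conn G {x, y} := by
  refine ⟨⟨x, by simp⟩, ?_⟩
  rintro a (rfl | rfl) b (rfl | rfl)
  · exact Link.refl _ _ _
  · exact Link.single (by simp) (by simp) hxy
  · exact Link.single (by simp) (by simp) hxy.symm
  · exact Link.refl _ _ _

theorem Model.of_contr {H : SimpleGraph W} {G : SimpleGraph V} {x y : V} (hxy : G.Adj x y)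
    {B : W → Set V} {S : Set V} (hS : y ∉ S) (hB : Model H (contr G x y) S B) :
    IsMinor H G := by
  classical
  refine (hB.comp (T := Set.univ) (fun v => if v = x then {x, y} else {v})
    (fun _ _ => Set.subset_univ _) ?_ ?_ ?_).isMinor
  · intro v _
    split_ifs
    · exact conn_pair hxy
    · exact conn_singleton _ _
  · intro v hv v' hv' hne
    have h1 : v ≠ y := fun h => hS (h ▸ hv)
    have h2 : v' ≠ y := fun h => hS (h ▸ hv')
    rw [Set.disjoint_left]
    intro a ha ha'
    split_ifs at ha ha' <;> simp only [Set.mem_insert_iff, Set.mem_singleton_iff] at ha ha' <;>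
      grind
  · rintro v hv v' hv' ⟨h1, h2, h3, h4⟩
    rcases h4 with h | h | h
    · refine ⟨v, ?_, v', ?_, h⟩ <;> split_ifs <;> simp [*]
    · refine ⟨y, ?_, v', ?_, h.2⟩ <;> split_ifs <;> simp_all
    · refine ⟨v, ?_, y, ?_, h.2⟩ <;> split_ifs <;> simp_all

theorem dd_le_contr [Finite V] {G : SimpleGraph V} {x y : V} (hxy : G.Adj x y) :
    dd G ≤ dd (contr G x y) + 2 * ((G.neighborSet x ∩ G.neighborSet y).ncard + 1) := by
  classical
  set T : Set V := insert x (G.neighborSet x ∩ G.neighborSet y) with hT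
  have hTc : T.ncard ≤ (G.neighborSet x ∩ G.neighborSet y).ncard + 1 := Set.ncard_insert_le _ _
  set bad : Set (V × V) := ((fun c => (y, c)) '' T) ∪ ((fun c => (c, y)) '' T) with hbad
  have hb : bad.ncard ≤ 2 * T.ncard := by
    have h1 := Set.ncard_union_le ((fun c => (y, c)) '' T) ((fun c => (c, y)) '' T)
    have h2 := Set.ncard_image_le (s := T) (f := fun c => (y, c))
    have h3 := Set.ncard_image_le (s := T) (f := fun c => (c, y))
    rw [← hbad] at h1
    omega
  set good : Set (V × V) := {p : V × V | G.Adj p.1 p.2} \ bad with hgood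
  have hmem : ∀ a b, (a, b) ∈ good → G.Adj a b ∧ ¬ (a = y ∧ (b = x ∨ G.Adj x b)) ∧
      ¬ (b = y ∧ (a = x ∨ G.Adj x a)) := by
    intro a b hab
    refine ⟨hab.1, ?_, ?_⟩
    · rintro ⟨rfl, h⟩
      refine hab.2 (Or.inl ⟨b, ?_, rfl⟩)
      rcases h with h | h
      · exact Or.inl h
      · exact Or.inr ⟨h, hab.1⟩
    · rintro ⟨rfl, h⟩
      refine hab.2 (Or.inr ⟨a, ?_, rfl⟩)
      rcases h with h | h
      · exact Or.inl h
      · exact Or.inr ⟨h, hab.1.symm⟩
  have hne : x ≠ y := hxy.ne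
  have hg : good.ncard ≤ dd (contr G x y) := by
    let r : V → V := fun v => if v = y then x else v
    refine Set.ncard_le_ncard_of_injOn (Prod.map r r) ?_ ?_ (Set.toFinite _)
    · rintro ⟨a, b⟩ hab
      obtain ⟨h1, h2, h3⟩ := hmem a b hab
      have h4 := h1.ne
      show r a ≠ r b ∧ r a ≠ y ∧ r b ≠ y ∧
        (G.Adj (r a) (r b) ∨ (r a = x ∧ G.Adj y (r b)) ∨ (r b = x ∧ G.Adj (r a) y))
      simp only [r]
      split_ifs <;> grind
    · rintro ⟨a, b⟩ hab ⟨a', b'⟩ hab' he
      obtain ⟨h1, h2, h3⟩ := hmem a b hab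
      obtain ⟨h1', h2', h3'⟩ := hmem a' b' hab'
      have h4 := h1.ne
      have h4' := h1'.ne
      have h5 := h1.symm
      have h5' := h1'.symm
      simp only [Prod.map, Prod.mk.injEq, r] at he ⊢
      split_ifs at he <;> grind
  have hsub : {p : V × V | G.Adj p.1 p.2} ⊆ good ∪ bad := by
    intro p hp
    by_cases h : p ∈ bad
    · exact Or.inr h
    · exact Or.inl ⟨hp, h⟩
  have h1 := Set.ncard_le_ncard hsub (Set.toFinite _)
  have h2 := Set.ncard_union_le good bad
  unfold dd at *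
  omega

/-- The edges of `G` inside a set, as a graph on the same vertex type. -/
def within (G : SimpleGraph V) (S : Set V) : SimpleGraph V where
  Adj a b := a ∈ S ∧ b ∈ S ∧ G.Adj a b
  symm := ⟨fun _ _ h => ⟨h.2.1, h.1, h.2.2.symm⟩⟩
  loopless := ⟨fun _ h => h.2.2.ne rfl⟩

theorem cone_minor {h : ℕ} {G : SimpleGraph V} {x : V} {B : Fin h → Set V}
    (hB : Model (⊤ : SimpleGraph (Fin h)) (within G (G.neighborSet x)) (G.neighborSet x) B) :
    IsMinor (⊤ : SimpleGraph (Fin (h + 1))) G := by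
  have hx : ∀ w, x ∉ B w := fun w hw => G.irrefl (hB.1 w hw)
  refine (isMinor_iff _ _).2 ⟨Fin.cons {x} B, fun _ => Set.subset_univ _, ?_, ?_, ?_⟩
  · intro w
    refine Fin.cases ?_ (fun w => ?_) w
    · exact conn_singleton _ _
    · simp only [Fin.cons_succ]
      refine ⟨(hB.2.1 w).1, fun u hu v hv => ?_⟩
      exact Link.map (G := within G (G.neighborSet x)) (G' := G) id
        (fun a ha b hb hab => Link.single ha hb hab.2.2) ((hB.2.1 w).2 u hu v hv)
  · intro w w'
    refine Fin.cases ?_ (fun w => ?_) w <;> refine Fin.cases ?_ (fun w' => ?_) w'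
    · simp
    · intro _; simpa using hx w'
    · intro _; simpa using hx w
    · intro hne
      simp only [Fin.cons_succ]
      exact hB.2.2.1 w w' fun h => hne (by rw [h])
  · intro w w'
    refine Fin.cases ?_ (fun w => ?_) w <;> refine Fin.cases ?_ (fun w' => ?_) w'
    · simp
    · intro _
      obtain ⟨v, hv⟩ := (hB.2.1 w').1
      exact ⟨x, rfl, v, hv, hB.1 w' hv⟩
    · intro _
      obtain ⟨v, hv⟩ := (hB.2.1 w).1
      exact ⟨v, hv, x, rfl, (hB.1 w hv).symm⟩
    · intro hne
      obtain ⟨u, hu, v, hv, huv⟩ := hB.2.2.2 w w' (by simpa using hne)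
      exact ⟨u, hu, v, hv, huv.2.2⟩

theorem mader_aux (h : ℕ) : ∃ c : ℕ, ∀ (V : Type) [Finite V] (G : SimpleGraph V),
    ¬ IsMinor (⊤ : SimpleGraph (Fin (h + 2))) G → dd G ≤ c * G.support.ncard := by
  induction h with
  | zero =>
    refine ⟨0, fun V _ G hG => ?_⟩
    have : {p : V × V | G.Adj p.1 p.2} = ∅ := by
      ext ⟨a, b⟩
      simp only [Set.mem_ofPred_eq, Set.mem_empty_iff_false, iff_false]
      intro hab
      refine hG (isMinor_of_inj ![a, b] ?_ ?_)
      · intro i j hij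
        fin_cases i <;> fin_cases j <;> simp_all [hab.ne, hab.ne.symm]
      · intro i j hij
        fin_cases i <;> fin_cases j <;> simp_all [hab.symm]
    simp [dd, this]
  | succ h ih =>
    obtain ⟨c, hc⟩ := ih
    refine ⟨2 * c + 2, fun V _ G => ?_⟩
    classical
    have := Fintype.ofFinite V
    generalize hn : G.support.ncard = n
    induction n using Nat.strong_induction_on generalizing G with
    | _ n ihn =>
      intro hG
      by_cases hex : ∃ x y, G.Adj x y ∧ (G.neighborSet x ∩ G.neighborSet y).ncard ≤ c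
      · obtain ⟨x, y, hxy, hcom⟩ := hex
        have h1 := Set.ncard_le_ncard (contr_support hxy) (Set.toFinite _)
        have hy : y ∈ G.support := ⟨x, hxy.symm⟩
        have h2 := Set.ncard_sdiff_singleton_add_one hy
        have h3 := ihn (contr G x y).support.ncard (by omega) (contr G x y) rfl (by
          intro hm
          obtain ⟨B, hB⟩ := (isMinor_iff _ _).1 hm
          exact hG (hB.subset_support.of_contr hxy fun hy => (contr_support hxy hy).2 rfl))
        have h4 := dd_le_contr hxy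
        have h5 : (2 * c + 2) * (contr G x y).support.ncard + (2 * c + 2) ≤ (2 * c + 2) * n := by
          rw [← Nat.mul_succ]
          exact Nat.mul_le_mul_left _ (by omega)
        omega
      · push Not at hex
        by_cases hE : ∃ x y, G.Adj x y
        · exfalso
          obtain ⟨x, y, hxy⟩ := hE
          have hsupp : (within G (G.neighborSet x)).support ⊆ G.neighborSet x := by
            rintro a ⟨b, hab⟩
            exact hab.1
          have h1 := hc V (within G (G.neighborSet x)) (by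
            intro hm
            obtain ⟨B, hB⟩ := (isMinor_iff _ _).1 hm
            have hB' := hB.subset_support
            exact hG (cone_minor (x := x) ⟨fun w => (hB'.1 w).trans hsupp, hB'.2⟩))
          have h2 := Set.ncard_le_ncard hsupp (Set.toFinite _)
          have h3 : (c + 1) * (G.neighborSet x).ncard ≤ dd (within G (G.neighborSet x)) := by
            rw [dd_eq_sum, ← SimpleGraph.coe_neighborFinset, Set.ncard_coe_finset, mul_comm,
              ← smul_eq_mul, ← Finset.sum_const]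
            refine le_trans (Finset.sum_le_sum fun a ha => ?_)
              (Finset.sum_le_sum_of_subset (Finset.subset_univ _))
            have hxa : G.Adj x a := by simpa using ha
            refine le_trans (hex x a hxa) (Set.ncard_le_ncard ?_ (Set.toFinite _))
            rintro b ⟨hb1, hb2⟩
            simp only [SimpleGraph.mem_neighborSet, within, Finset.mem_coe,
              SimpleGraph.mem_neighborFinset]
            exact ⟨hxa, hb1, hb2⟩
          have h4 : 0 < (G.neighborSet x).ncard := (Set.ncard_pos (Set.toFinite _)).2 ⟨y, hxy⟩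
          have h5 := Nat.mul_le_mul_left c h2
          nlinarith
        · have : {p : V × V | G.Adj p.1 p.2} = ∅ := by
            ext ⟨a, b⟩
            simp only [Set.mem_ofPred_eq, Set.mem_empty_iff_false, iff_false]
            exact fun hab => hE ⟨a, b, hab⟩
          simp [dd, this]

/-- Free graphs have linearly many edges and bounded cliques. -/
theorem exists_bounds {F : Family} (hF : F.Nonempty) : ∃ c h : ℕ,
    (∀ (V : Type) [Finite V] (G : SimpleGraph V), Free F G → dd G ≤ c * Nat.card V) ∧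
    ∀ (V : Type) [Finite V] (G : SimpleGraph V) (T : Set V), Free F G →
      (∀ a ∈ T, ∀ b ∈ T, a ≠ b → G.Adj a b) → T.ncard ≤ h := by
  obtain ⟨⟨k, H⟩, hH⟩ := hF
  obtain ⟨c, hc⟩ := mader_aux k
  refine ⟨c, k, fun V _ G hG => ?_, fun V _ G T hG hT => ?_⟩
  · have h0 : IsMinor H (⊤ : SimpleGraph (Fin (k + 2))) :=
      isMinor_of_inj (Fin.castLE (by omega)) (Fin.castLE_injective _) fun a b hab =>
        fun h => hab.ne (Fin.castLE_injective _ h)
    have h1 := hc V G fun hm => hG _ hH (h0.trans hm)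
    refine h1.trans (Nat.mul_le_mul_left _ ?_)
    rw [← Set.ncard_univ]
    exact Set.ncard_le_ncard (Set.subset_univ _) (Set.toFinite _)
  · by_contra hlt
    push Not at hlt
    have : Nonempty (Fin k ↪ T) := by
      have := Fintype.ofFinite T
      apply Function.Embedding.nonempty_of_card_le
      rw [Fintype.card_fin, ← Nat.card_eq_fintype_card, Nat.card_coe_set_eq]
      exact hlt.le
    obtain ⟨e⟩ := this
    refine hG _ hH (isMinor_of_inj (fun i => (e i : V))
      (Subtype.val_injective.comp e.injective) fun a b hab => hT _ (e a).2 _ (e b).2 ?_)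
    exact fun h => hab.ne (e.injective (Subtype.ext h))

end Pool.Agent.MP_9d78a0_co

end MrgPart1

-- ======== part 2: formerly Pool.Agent.MP_9d78a0_co.Glue
section MrgPart2

/-!
Edge-maximal extensions of disjoint unions.
-/

set_option autoImplicit false

namespace Pool.Agent.MP_9d78a0_co

open Relation

variable {U V W : Type} {F : Family}

theorem sup_edge_adj {G : SimpleGraph V} {a b u v : V} (h : (G ⊔ SimpleGraph.edge a b).Adj u v) :
    G.Adj u v ∨ (u = a ∧ v = b) ∨ (u = b ∧ v = a) := by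
  rcases h with h | h
  · exact Or.inl h
  · rw [SimpleGraph.edge_adj] at h
    exact Or.inr h.1

theorem EdgeMax.adj_of_ext {G : SimpleGraph V} {G' : SimpleGraph U} (hG : EdgeMax F G)
    (hG' : Free F G') (f : V → U) (hf : Function.Injective f)
    (ha : ∀ v v', G.Adj v v' → G'.Adj (f v) (f v')) {a b : V} (hab : G'.Adj (f a) (f b)) :
    G.Adj a b := by
  by_contra hn
  refine hG.2 a b (fun h => hab.ne (by rw [h])) hn (hG'.of_inj f hf fun u v huv => ?_)
  rcases sup_edge_adj huv with h | ⟨rfl, rfl⟩ | ⟨rfl, rfl⟩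
  · exact ha _ _ h
  · exact hab
  · exact hab.symm

theorem Conn.insert {G : SimpleGraph V} {K : Set V} (hK : Conn G K) {a x : V} (hx : x ∈ K)
    (hax : G.Adj a x) : Conn G (insert a K) := by
  have hsub : K ⊆ Insert.insert a K := Set.subset_insert _ _
  have h1 : ∀ v ∈ Insert.insert a K, Link G (Insert.insert a K) a v := by
    rintro v (rfl | hv)
    · exact Link.refl _ _ _
    · exact (Link.single (Set.mem_insert _ _) (hsub hx) hax).trans ((hK.2 x hx v hv).mono hsub)
  exact ⟨⟨a, Set.mem_insert _ _⟩, fun u hu v hv => (h1 u hu).symm.trans (h1 v hv)⟩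

theorem EdgeMax.adj_of_conn {G : SimpleGraph V} {G' : SimpleGraph U} (hG : EdgeMax F G)
    (hG' : Free F G') (f : V → U) (hf : Function.Injective f)
    (ha : ∀ v v', G.Adj v v' → G'.Adj (f v) (f v')) {K : Set U} (hK : Conn G' K)
    (hdis : ∀ v, f v ∉ K) {a b : V} (hne : a ≠ b) {x y : U} (hx : x ∈ K) (hy : y ∈ K)
    (hax : G'.Adj (f a) x) (hby : G'.Adj (f b) y) : G.Adj a b := by
  classical
  by_contra hn
  refine hG.2 a b hne hn (hG'.of_minor ((isMinor_iff _ _).2
    ⟨fun v => if v = a then insert (f a) K else {f v}, fun _ => Set.subset_univ _, ?_, ?_, ?_⟩))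
  · intro v
    dsimp only
    split_ifs
    · exact hK.insert hx hax
    · exact conn_singleton _ _
  · intro v v' hvv
    rw [Set.disjoint_left]
    intro z hz hz'
    have h1 := hdis v
    have h2 := hdis v'
    have h3 := @hf v v'
    have h4 := @hf a v'
    have h5 := @hf a v
    dsimp only at hz hz'
    split_ifs at hz hz' <;> simp only [Set.mem_insert_iff, Set.mem_singleton_iff] at hz hz' <;>
      grind
  · intro v v' hvv
    have hm : ∀ v, f v ∈ (if v = a then insert (f a) K else {f v} : Set U) := by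
      intro v
      split_ifs with h
      · rw [h]; exact Set.mem_insert _ _
      · rfl
    have hy' : y ∈ (if a = a then insert (f a) K else {f a} : Set U) := by
      simp [hy]
    rcases sup_edge_adj hvv with h | ⟨rfl, rfl⟩ | ⟨rfl, rfl⟩
    · exact ⟨_, hm v, _, hm v', ha _ _ h⟩
    · exact ⟨y, hy', _, hm v', hby.symm⟩
    · exact ⟨_, hm v, y, hy', hby⟩

/-- Freeness can be checked part by part when the excluded minors are connected. -/
theorem free_of_parts (hc : ∀ H ∈ F, H.2.Connected) {I : Type} {G : SimpleGraph V} (p : V → I)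
    (hp : ∀ a b, G.Adj a b → p a = p b)
    (h : ∀ i, ∀ H ∈ F, ∀ B, ¬ Model H.2 G {v | p v = i} B) : Free F G := by
  intro H hH hm
  obtain ⟨i, B, hB⟩ := exists_model_part (hc H hH) p hp hm
  exact h i H hH B hB

/-- Adding an isolated vertex. -/
def addIso (G : SimpleGraph V) : SimpleGraph (Option V) where
  Adj a b := ∃ u v, G.Adj u v ∧ some u = a ∧ some v = b
  symm := ⟨fun _ _ ⟨u, v, h, h1, h2⟩ => ⟨v, u, h.symm, h2, h1⟩⟩
  loopless := ⟨fun _ ⟨_, _, h, h1, h2⟩ => h.ne (Option.some_injective _ (h1.trans h2.symm))⟩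

theorem free_addIso (hc : ∀ H ∈ F, H.2.Connected) (he : ∀ H ∈ F, H.2 ≠ ⊥) {G : SimpleGraph V}
    (hG : Free F G) : Free F (addIso G) := by
  classical
  refine free_of_parts hc Option.isSome ?_ ?_
  · rintro a b ⟨u, v, -, rfl, rfl⟩
    rfl
  · intro i H hH B hB
    cases i with
    | false =>
      refine free_bot (V := Option V) he H hH (hB.map id (Set.injOn_id _) ?_)
      rintro a ha b hb ⟨u, v, -, rfl, rfl⟩
      simp at ha
    | true =>
      obtain ⟨w⟩ := (hc H hH).nonempty
      obtain ⟨x, hx⟩ := (hB.2.1 w).1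
      obtain ⟨x0, -⟩ := Option.isSome_iff_exists.1 (hB.1 w hx)
      refine hG H hH (hB.map (fun o => o.getD x0) ?_ ?_)
      · intro a ha b hb hab
        obtain ⟨a, rfl⟩ := Option.isSome_iff_exists.1 ha
        obtain ⟨b, rfl⟩ := Option.isSome_iff_exists.1 hb
        simpa using hab
      · rintro a ha b hb ⟨u, v, huv, rfl, rfl⟩
        exact huv

theorem dd_option_le [Finite V] {G : SimpleGraph V} {G' : SimpleGraph (Option V)}
    (h : ∀ a b, G'.Adj (some a) (some b) → G.Adj a b) :
    dd G' ≤ dd G + 2 * {a | G'.Adj (some a) none}.ncard := by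
  set T := {a | G'.Adj (some a) none}
  have hsub : {p : Option V × Option V | G'.Adj p.1 p.2} ⊆
      (Prod.map some some '' {p : V × V | G.Adj p.1 p.2}) ∪
        (((fun a => (some a, none)) '' T) ∪ ((fun a => (none, some a)) '' T)) := by
    rintro ⟨_ | a, _ | b⟩ hp
    · exact absurd hp G'.irrefl
    · exact Or.inr (Or.inr ⟨b, hp.symm, rfl⟩)
    · exact Or.inr (Or.inl ⟨a, hp, rfl⟩)
    · exact Or.inl ⟨(a, b), h a b hp, rfl⟩
  have h1 := Set.ncard_le_ncard hsub (Set.toFinite _)
  have h2 := Set.ncard_union_le (Prod.map some some '' {p : V × V | G.Adj p.1 p.2})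
    (((fun a => ((some a, none) : Option V × Option V)) '' T) ∪ ((fun a => (none, some a)) '' T))
  have h3 := Set.ncard_union_le ((fun a => ((some a, none) : Option V × Option V)) '' T)
    ((fun a => (none, some a)) '' T)
  have h4 := Set.ncard_image_le (s := T) (f := fun a => ((some a, none) : Option V × Option V))
  have h5 := Set.ncard_image_le (s := T) (f := fun a => ((none, some a) : Option V × Option V))
  have h6 := Set.ncard_image_le (s := {p : V × V | G.Adj p.1 p.2}) (f := Prod.map some some)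
  unfold dd
  omega

/-- The clique bound of a family. -/
def CliqueBound (F : Family) (h : ℕ) : Prop :=
  ∀ (V : Type) [Finite V] (G : SimpleGraph V) (T : Set V), Free F G →
    (∀ a ∈ T, ∀ b ∈ T, a ≠ b → G.Adj a b) → T.ncard ≤ h

/-- The linear edge bound of a family. -/
def EdgeBound (F : Family) (c : ℕ) : Prop :=
  ∀ (V : Type) [Finite V] (G : SimpleGraph V), Free F G → dd G ≤ c * Nat.card V

theorem Mminus_succ_le (hc : ∀ H ∈ F, H.2.Connected) (he : ∀ H ∈ F, H.2 ≠ ⊥) {h : ℕ}
    (hh : CliqueBound F h) (n : ℕ) : Mminus F (n + 1) ≤ Mminus F n + h := by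
  obtain ⟨G, hG, hd⟩ := exists_Mminus he n
  obtain ⟨G', hle, hG'⟩ := exists_edgeMax (free_addIso hc he hG.1)
  have ha : ∀ v v', G.Adj v v' → G'.Adj (some v) (some v') := fun v v' hv =>
    hle ⟨v, v', hv, rfl, rfl⟩
  have h1 := two_Mminus_le hG'
  have h2 := dd_option_le (G := G) (G' := G') fun a b hab =>
    hG.adj_of_ext hG'.1 some (Option.some_injective _) ha hab
  have h3 := hh (Fin n) G {a | G'.Adj (some a) none} hG.1 fun a ha' b hb hne =>
    hG.adj_of_conn hG'.1 some (Option.some_injective _) ha (conn_singleton G' none)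
      (fun v => by simp) hne rfl rfl ha' hb
  have h4 : Nat.card (Option (Fin n)) = n + 1 := by simp
  rw [h4] at h1
  omega

theorem Mminus_add_le (hc : ∀ H ∈ F, H.2.Connected) (he : ∀ H ∈ F, H.2 ≠ ⊥) {h : ℕ}
    (hh : CliqueBound F h) (n r : ℕ) : Mminus F (n + r) ≤ Mminus F n + h * r := by
  induction r with
  | zero => simp
  | succ r ih =>
    have := Mminus_succ_le hc he hh (n + r)
    rw [← add_assoc, Nat.mul_succ]
    omega

/-- Disjoint copies of a graph. -/
def copies (I : Type) (C : SimpleGraph V) : SimpleGraph (I × V) where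
  Adj p q := p.1 = q.1 ∧ C.Adj p.2 q.2
  symm := ⟨fun _ _ h => ⟨h.1.symm, h.2.symm⟩⟩
  loopless := ⟨fun _ h => h.2.ne rfl⟩

theorem free_copies (hc : ∀ H ∈ F, H.2.Connected) (I : Type) {C : SimpleGraph V}
    (hC : Free F C) : Free F (copies I C) := by
  refine free_of_parts hc Prod.fst (fun _ _ h => h.1) fun i H hH B hB => ?_
  refine hC H hH (hB.map Prod.snd ?_ fun _ _ _ _ h => h.2)
  intro a ha b hb hab
  exact Prod.ext (ha.trans hb.symm) hab

/-- The graph of pairs of copies joined by an edge. -/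
def quot {I : Type} (G : SimpleGraph (I × V)) : SimpleGraph I where
  Adj i j := i ≠ j ∧ ∃ a b, G.Adj (i, a) (j, b)
  symm := ⟨fun _ _ ⟨h, a, b, hab⟩ => ⟨h.symm, b, a, hab.symm⟩⟩
  loopless := ⟨fun _ h => h.1 rfl⟩

theorem conn_fiber {I : Type} {C : SimpleGraph V} (hC : Conn C Set.univ)
    {G : SimpleGraph (I × V)} (hle : copies I C ≤ G) (i : I) : Conn G {p | p.1 = i} := by
  obtain ⟨⟨x, -⟩, h⟩ := hC
  refine ⟨⟨(i, x), rfl⟩, ?_⟩
  rintro ⟨_, a⟩ rfl ⟨j, b⟩ hj
  obtain rfl : j = _ := hj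
  exact Link.map (G := C) (G' := G) (fun v => (j, v))
    (fun u _ v _ huv => Link.single rfl rfl (hle ⟨rfl, huv⟩)) (h a trivial b trivial)

theorem dd_copies_le {I : Type} [Finite I] [Finite V] {C : SimpleGraph V} (hC : EdgeMax F C)
    (hconn : Conn C Set.univ) {h : ℕ} (hh : CliqueBound F h) {G : SimpleGraph (I × V)}
    (hle : copies I C ≤ G) (hG : Free F G) :
    dd G ≤ Nat.card I * dd C + h * h * dd (quot G) := by
  classical
  have hinj : ∀ i : I, Function.Injective fun v : V => (i, v) := fun i a b h => (Prod.ext_iff.1 h).2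
  have hhom : ∀ i : I, ∀ v v', C.Adj v v' → G.Adj (i, v) (i, v') := fun i v v' h => hle ⟨rfl, h⟩
  let T : I → I → Set V := fun i j => {a | ∃ b, G.Adj (i, a) (j, b)}
  have hT : ∀ i j, i ≠ j → (T i j).ncard ≤ h := by
    intro i j hij
    refine hh V C _ hC.1 ?_
    rintro a ⟨x, hx⟩ b ⟨y, hy⟩ hne
    exact hC.adj_of_conn hG _ (hinj i) (hhom i) (conn_fiber hconn hle j) (fun v => hij) hne
      (x := (j, x)) (y := (j, y)) rfl rfl hx hy
  have := Fintype.ofFinite I
  have := Fintype.ofFinite V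
  let P : Finset ((I × V) × (I × V)) := Finset.univ.filter fun p => G.Adj p.1 p.2
  have hP : dd G = P.card := by
    rw [dd, ← Set.ncard_coe_finset]
    congr 1
    ext p; simp [P]
  let Q : Finset (I × I) := Finset.univ.filter fun p => (quot G).Adj p.1 p.2
  have hQ : dd (quot G) = Q.card := by
    rw [dd, ← Set.ncard_coe_finset]
    congr 1
    ext p; simp [Q]
  let R : Finset (V × V) := Finset.univ.filter fun p => C.Adj p.1 p.2
  have hR : dd C = R.card := by
    rw [dd, ← Set.ncard_coe_finset]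
    congr 1
    ext p; simp [R]
  have h1 : (P.filter fun p => p.1.1 = p.2.1).card ≤ Nat.card I * dd C := by
    rw [hR, Nat.card_eq_fintype_card, ← Finset.card_univ, ← Finset.card_product]
    refine Finset.card_le_card_of_injOn (fun p => (p.1.1, (p.1.2, p.2.2))) ?_ ?_
    · rintro ⟨⟨i, a⟩, ⟨j, b⟩⟩ hp
      simp only [P, Finset.coe_filter, Finset.mem_filter, Finset.mem_univ, true_and,
        Set.mem_ofPred_eq] at hp
      obtain ⟨hp, rfl⟩ := hp
      simpa [R] using hC.adj_of_ext hG _ (hinj i) (hhom i) hp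
    · rintro ⟨⟨i, a⟩, ⟨j, b⟩⟩ hp ⟨⟨i', a'⟩, ⟨j', b'⟩⟩ hp' he
      simp only [P, Finset.coe_filter, Finset.mem_filter, Finset.mem_univ, true_and,
        Set.mem_ofPred_eq] at hp hp'
      simp only [Prod.mk.injEq] at he ⊢
      grind
  have h2 : (P.filter fun p => ¬ p.1.1 = p.2.1).card ≤ h * h * dd (quot G) := by
    rw [hQ]
    refine Finset.card_le_mul_card_image_of_maps_to (f := fun p => (p.1.1, p.2.1)) ?_ _ ?_
    · rintro ⟨⟨i, a⟩, ⟨j, b⟩⟩ hp
      simp only [P, Finset.mem_filter, Finset.mem_univ, true_and] at hp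
      simp only [Q, Finset.mem_filter, Finset.mem_univ, true_and]
      exact ⟨hp.2, a, b, hp.1⟩
    · rintro ⟨i, j⟩ hij
      have hne : i ≠ j := by
        simp only [Q, Finset.mem_filter, Finset.mem_univ, true_and] at hij
        exact hij.1
      refine le_trans ?_ (Nat.mul_le_mul (hT i j hne) (hT j i hne.symm))
      rw [← Set.ncard_prod, ← Set.ncard_coe_finset]
      refine Set.ncard_le_ncard_of_injOn (fun p => (p.1.2, p.2.2)) ?_ ?_ (Set.toFinite _)
      · rintro ⟨⟨i', a⟩, ⟨j', b⟩⟩ hp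
        simp only [P, Finset.coe_filter, Finset.mem_filter, Finset.mem_univ, true_and,
          Set.mem_ofPred_eq, Prod.mk.injEq] at hp
        obtain ⟨⟨hp, -⟩, rfl, rfl⟩ := hp
        exact ⟨⟨b, hp⟩, ⟨a, hp.symm⟩⟩
      · rintro ⟨⟨i1, a⟩, ⟨j1, b⟩⟩ hp ⟨⟨i', a'⟩, ⟨j', b'⟩⟩ hp' he
        simp only [P, Finset.coe_filter, Finset.mem_filter, Finset.mem_univ, true_and,
          Set.mem_ofPred_eq, Prod.mk.injEq] at hp hp' he ⊢
        grind
  have h3 := Finset.card_filter_add_card_filter_not (s := P) (fun p => p.1.1 = p.2.1)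
  omega

theorem quot_minor {I : Type} {C : SimpleGraph V} (hconn : Conn C Set.univ)
    {G : SimpleGraph (I × V)} (hle : copies I C ≤ G) : IsMinor (quot G) G := by
  refine (isMinor_iff _ _).2 ⟨fun i => {p | p.1 = i}, fun _ => Set.subset_univ _,
    conn_fiber hconn hle, ?_, ?_⟩
  · intro i j hij
    rw [Set.disjoint_left]
    exact fun p hp hp' => hij (hp.symm.trans hp')
  · rintro i j ⟨-, a, b, hab⟩
    exact ⟨(i, a), rfl, (j, b), rfl, hab⟩

/-- Many copies of a connected edge-maximal graph. -/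
theorem Mminus_copies (hc : ∀ H ∈ F, H.2.Connected) [Finite V] {C : SimpleGraph V}
    (hC : EdgeMax F C) (hconn : Conn C Set.univ) {h c : ℕ} (hh : CliqueBound F h)
    (hcc : EdgeBound F c) (k : ℕ) :
    2 * Mminus F (k * Nat.card V) ≤ k * dd C + h * h * (c * k) := by
  obtain ⟨G, hle, hG⟩ := exists_edgeMax (free_copies hc (Fin k) hC.1)
  have h1 := two_Mminus_le hG
  have h2 := dd_copies_le hC hconn hh hle hG.1
  have h3 := hcc (Fin k) (quot G) (hG.1.of_minor (quot_minor hconn hle))
  simp only [Nat.card_prod, Nat.card_eq_fintype_card, Fintype.card_fin] at h1 h2 h3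
  have h4 := Nat.mul_le_mul_left (h * h) h3
  omega

/-- Two copies of `C` cannot be joined by an edge. -/
def Unjoinable (F : Family) (C : SimpleGraph V) : Prop :=
  ∀ (U : Type) (G : SimpleGraph U) (f g : V → U), Free F G → Function.Injective f →
    Function.Injective g → (∀ a b, f a ≠ g b) → (∀ a b, C.Adj a b → G.Adj (f a) (f b)) →
    (∀ a b, C.Adj a b → G.Adj (g a) (g b)) → ∀ a b, ¬ G.Adj (f a) (g b)

theorem Mminus_copies_unjoinable (hc : ∀ H ∈ F, H.2.Connected) [Finite V] {C : SimpleGraph V}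
    (hC : EdgeMax F C) (hconn : Conn C Set.univ) {h : ℕ} (hh : CliqueBound F h)
    (hu : Unjoinable F C) (k : ℕ) : 2 * Mminus F (k * Nat.card V) ≤ k * dd C := by
  obtain ⟨G, hle, hG⟩ := exists_edgeMax (free_copies hc (Fin k) hC.1)
  have h1 := two_Mminus_le hG
  have h2 := dd_copies_le hC hconn hh hle hG.1
  have h3 : dd (quot G) = 0 := by
    have : {p : Fin k × Fin k | (quot G).Adj p.1 p.2} = ∅ := by
      ext ⟨i, j⟩
      simp only [Set.mem_ofPred_eq, Set.mem_empty_iff_false, iff_false]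
      rintro ⟨hij, a, b, hab⟩
      exact hu _ G (fun v => (i, v)) (fun v => (j, v)) hG.1 (fun a b h => (Prod.ext_iff.1 h).2)
        (fun a b h => (Prod.ext_iff.1 h).2) (fun a b h => hij (Prod.ext_iff.1 h).1)
        (fun a b h => hle ⟨rfl, h⟩) (fun a b h => hle ⟨rfl, h⟩) a b hab
    simp [dd, this]
  simp only [Nat.card_prod, Nat.card_eq_fintype_card, Fintype.card_fin] at h1 h2
  rw [h3] at h2
  omega

theorem Mplus_superadd (hc : ∀ H ∈ F, H.2.Connected) (he : ∀ H ∈ F, H.2 ≠ ⊥) (m n : ℕ) :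
    Mplus F m + Mplus F n ≤ Mplus F (m + n) := by
  classical
  obtain ⟨G, hG, hd⟩ := exists_Mplus he m
  obtain ⟨G', hG', hd'⟩ := exists_Mplus he n
  have hfree : Free F (G.sum G') := by
    refine free_of_parts hc Sum.isLeft ?_ ?_
    · rintro (a | a) (b | b) h <;> simp_all
    · intro i H hH B hB
      obtain ⟨w⟩ := (hc H hH).nonempty
      obtain ⟨x, hx⟩ := (hB.2.1 w).1
      have hx' := hB.1 w hx
      cases x with
      | inl x =>
        obtain rfl : true = i := hx'
        refine hG.1 H hH (hB.map (Sum.elim id fun _ => x) ?_ ?_)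
        · rintro (a | a) ha (b | b) hb hab <;> simp_all
        · rintro (a | a) ha (b | b) hb hab <;> simp_all
      | inr x =>
        obtain rfl : false = i := hx'
        refine hG'.1 H hH (hB.map (Sum.elim (fun _ => x) id) ?_ ?_)
        · rintro (a | a) ha (b | b) hb hab <;> simp_all
        · rintro (a | a) ha (b | b) hb hab <;> simp_all
  have h1 := le_two_Mplus hfree
  have h2 : dd G + dd G' ≤ dd (G.sum G') := by
    have h3 : (Prod.map Sum.inl Sum.inl '' {p : Fin m × Fin m | G.Adj p.1 p.2}) ∪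
        (Prod.map Sum.inr Sum.inr '' {p : Fin n × Fin n | G'.Adj p.1 p.2}) ⊆
        {p : (Fin m ⊕ Fin n) × (Fin m ⊕ Fin n) | (G.sum G').Adj p.1 p.2} := by
      rintro _ (⟨p, hp, rfl⟩ | ⟨p, hp, rfl⟩)
      · simpa using hp
      · simpa using hp
    have h4 := Set.ncard_le_ncard h3 (Set.toFinite _)
    rw [Set.ncard_union_eq, Set.ncard_image_of_injective _
      (Sum.inl_injective.prodMap Sum.inl_injective), Set.ncard_image_of_injective _
      (Sum.inr_injective.prodMap Sum.inr_injective)] at h4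
    · exact h4
    · rw [Set.disjoint_left]
      rintro _ ⟨p, -, rfl⟩ ⟨q, -, hq⟩
      simp [Prod.ext_iff] at hq
  simp only [Nat.card_eq_fintype_card, Fintype.card_sum, Fintype.card_fin] at h1
  omega

end Pool.Agent.MP_9d78a0_co

end MrgPart2

-- ======== part 3: formerly Pool.Agent.MP_9d78a0_co.Main
section MrgPart3

/-!
Convergence of the normalised least and largest edge counts for connected excluded minors.
-/

set_option autoImplicit false

namespace Pool.Agent.MP_9d78a0_co

open Relation Filter Topology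

variable {U V W : Type} {F : Family}

theorem exists_model_new (hc : ∀ H ∈ F, H.2.Connected) {I : Type} {G G1 : SimpleGraph V}
    (hG : Free F G) (hG1 : ¬ Free F G1) (p : V → I) (i0 : I)
    (hp : ∀ a b, G1.Adj a b → p a = p b ∧ (p a ≠ i0 → G.Adj a b)) :
    ∃ H ∈ F, ∃ B, Model H.2 G1 {v | p v = i0} B := by
  by_contra hn
  push Not at hn
  refine hG1 (free_of_parts hc p (fun a b h => (hp a b h).1) fun i H hH B hB => ?_)
  by_cases hi : i = i0
  · subst hi
    exact hn H hH B hB
  · refine hG H hH (hB.map id (Set.injOn_id _) fun a ha b _ hab => (hp a b hab).2 ?_)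
    exact fun h => hi (ha.symm.trans h)

theorem comp_adj {G : SimpleGraph V} {a b : V} (h : G.Adj a b) :
    G.connectedComponentMk a = G.connectedComponentMk b :=
  SimpleGraph.ConnectedComponent.connectedComponentMk_eq_of_adj h

theorem edgeMax_comp (hc : ∀ H ∈ F, H.2.Connected) {G : SimpleGraph V} (hG : EdgeMax F G)
    (c : G.ConnectedComponent) : EdgeMax F (G.induce c.supp) := by
  classical
  refine ⟨hG.1.of_inj Subtype.val Subtype.val_injective fun _ _ h => h, fun u v huv hn hf => ?_⟩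
  obtain ⟨H, hH, B, hB⟩ := exists_model_new hc hG.1
    (hG.2 u v (fun h => huv (Subtype.ext h)) hn) G.connectedComponentMk c (by
      intro a b hab
      rcases sup_edge_adj hab with h | ⟨rfl, rfl⟩ | ⟨rfl, rfl⟩
      · exact ⟨comp_adj h, fun _ => h⟩
      · exact ⟨u.2.trans v.2.symm, fun h => absurd u.2 h⟩
      · exact ⟨v.2.trans u.2.symm, fun h => absurd v.2 h⟩)
  refine hf H hH (hB.map (fun x => if h : x ∈ c.supp then ⟨x, h⟩ else u) ?_ ?_)
  · intro a ha b hb hab
    have ha' : a ∈ c.supp := ha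
    have hb' : b ∈ c.supp := hb
    simpa [ha', hb'] using hab
  · intro a ha b hb hab
    have ha' : a ∈ c.supp := ha
    have hb' : b ∈ c.supp := hb
    simp only [ha', hb', dif_pos]
    rcases sup_edge_adj hab with h | ⟨rfl, rfl⟩ | ⟨rfl, rfl⟩
    · exact Or.inl h
    · exact Or.inr ((SimpleGraph.edge_adj _ _ _ _).2 ⟨Or.inl ⟨rfl, rfl⟩, huv⟩)
    · exact Or.inr ((SimpleGraph.edge_adj _ _ _ _).2 ⟨Or.inr ⟨rfl, rfl⟩, huv.symm⟩)

theorem conn_comp (G : SimpleGraph V) (c : G.ConnectedComponent) :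
    Conn (G.induce c.supp) Set.univ := by
  have h : (G.induce c.supp).Connected := c.connected_toSimpleGraph
  obtain ⟨x⟩ := h.nonempty
  refine ⟨⟨x, trivial⟩, fun u _ v _ => ?_⟩
  have h1 := (SimpleGraph.reachable_iff_reflTransGen _ _).1 (h.preconnected u v)
  induction h1 with
  | refl => exact Link.refl _ _ _
  | tail _ hbc ih => exact (ih trivial).trans (Link.single trivial trivial hbc)

theorem unjoinable_of_twin (hc : ∀ H ∈ F, H.2.Connected) {G : SimpleGraph V} (hG : EdgeMax F G)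
    {c c' : G.ConnectedComponent} (hne : c ≠ c') (φ : V → c.supp) (hinj : Set.InjOn φ c'.supp)
    (hsurj : ∀ b, ∃ v ∈ c'.supp, φ v = b)
    (hhom : ∀ v ∈ c'.supp, ∀ v' ∈ c'.supp, G.Adj v v' → G.Adj (φ v) (φ v')) :
    Unjoinable F (G.induce c.supp) := by
  classical
  intro U G' f g hG' hf hg hfg hfa hga a b hab
  obtain ⟨v, hv, rfl⟩ := hsurj b
  have ha : G.connectedComponentMk a = c := a.2
  have hv' : G.connectedComponentMk v = c' := hv
  have hav : (a : V) ≠ v := fun h => hne (ha.symm.trans (h ▸ hv'))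
  have hnadj : ¬ G.Adj a v := fun h => hne (ha.symm.trans ((comp_adj h).trans hv'))
  obtain ⟨H, hH, B, hB⟩ := exists_model_new hc hG.1 (hG.2 a v hav hnadj)
    (fun x => if G.connectedComponentMk x = c' then c else G.connectedComponentMk x) c (by
      intro x y hxy
      rcases sup_edge_adj hxy with h | ⟨rfl, rfl⟩ | ⟨rfl, rfl⟩
      · exact ⟨by rw [comp_adj h], fun _ => h⟩
      · simp [ha, hv']
      · simp [ha, hv'])
  have hcase : ∀ x, (if G.connectedComponentMk x = c' then c else G.connectedComponentMk x) = c →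
      x ∈ c.supp ∨ (x ∉ c.supp ∧ x ∈ c'.supp) := by
    intro x hx
    by_cases h : x ∈ c.supp
    · exact Or.inl h
    · refine Or.inr ⟨h, ?_⟩
      by_contra h'
      have h'' : ¬ G.connectedComponentMk x = c' := h'
      rw [if_neg h''] at hx
      exact h hx
  refine hG' H hH (hB.map (fun x => if h : x ∈ c.supp then f ⟨x, h⟩ else g (φ x)) ?_ ?_)
  · intro x hx y hy hxy
    rcases hcase x hx with h1 | ⟨h1, h1'⟩ <;> rcases hcase y hy with h2 | ⟨h2, h2'⟩ <;>
      simp only [h1, h2, dif_pos, dif_neg, not_false_eq_true] at hxy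
    · exact congrArg Subtype.val (hf hxy)
    · exact absurd hxy (hfg _ _)
    · exact absurd hxy.symm (hfg _ _)
    · exact hinj h1' h2' (hg hxy)
  · intro x hx y hy hxy
    have hvc : v ∉ c.supp := fun h => hne (h.symm.trans hv')
    rcases sup_edge_adj hxy with h | ⟨rfl, rfl⟩ | ⟨rfl, rfl⟩
    · have h0 := comp_adj h
      rcases hcase x hx with h1 | ⟨h1, h1'⟩ <;> rcases hcase y hy with h2 | ⟨h2, h2'⟩ <;>
        simp only [h1, h2, dif_pos, dif_neg, not_false_eq_true]
      · exact hfa _ _ h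
      · exact absurd (h0.symm.trans h1) h2
      · exact absurd (h0.trans h2) h1
      · exact hga _ _ (hhom x h1' y h2' h)
    · simp only [a.2, hvc, dif_pos, dif_neg, not_false_eq_true]
      exact hab
    · simp only [a.2, hvc, dif_pos, dif_neg, not_false_eq_true]
      exact hab.symm

theorem sum_card_comp [Finite V] (G : SimpleGraph V) [Fintype G.ConnectedComponent] :
    ∑ c : G.ConnectedComponent, Nat.card c.supp = Nat.card V := by
  rw [← Nat.card_sigma]
  exact Nat.card_congr (Equiv.sigmaFiberEquiv G.connectedComponentMk)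

theorem sum_dd_comp [Finite V] (G : SimpleGraph V) [Fintype G.ConnectedComponent] :
    ∑ c : G.ConnectedComponent, dd (G.induce c.supp) ≤ dd G := by
  simp only [dd, ← Nat.card_coe_set_eq]
  rw [← Nat.card_sigma]
  refine Nat.card_le_card_of_injective
    (fun q => ⟨(q.2.1.1.1, q.2.1.2.1), q.2.2⟩) ?_
  rintro ⟨c, ⟨⟨a, ha⟩, ⟨b, hb⟩⟩, hab⟩ ⟨c', ⟨⟨a', ha'⟩, ⟨b', hb'⟩⟩, hab'⟩ he
  simp only [Subtype.mk.injEq, Prod.mk.injEq] at he
  obtain ⟨rfl, rfl⟩ := he
  obtain rfl : c = c' := ha.symm.trans ha'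
  rfl

/-- Among many small components two are isomorphic. -/
theorem exists_twin [Finite V] (G : SimpleGraph V) (s : ℕ) (L : Finset G.ConnectedComponent)
    (hL : ∀ c ∈ L, Nat.card c.supp ≤ s + 1)
    (hcard : Nat.card (Set (Fin (s + 1)) × Set (Fin (s + 1) × Fin (s + 1))) < L.card) :
    ∃ c ∈ L, ∃ c' ∈ L, c ≠ c' ∧ ∃ φ : V → c.supp, Set.InjOn φ c'.supp ∧
      (∀ b, ∃ v ∈ c'.supp, φ v = b) ∧
      ∀ v ∈ c'.supp, ∀ v' ∈ c'.supp, G.Adj v v' → G.Adj (φ v) (φ v') := by
  classical
  have hι : ∀ c : G.ConnectedComponent, ∃ ι : V → Fin (s + 1), c ∈ L → Set.InjOn ι c.supp := by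
    intro c
    by_cases hcL : c ∈ L
    · have := Fintype.ofFinite c.supp
      have : Nonempty (c.supp ↪ Fin (s + 1)) := by
        apply Function.Embedding.nonempty_of_card_le
        rw [Fintype.card_fin, ← Nat.card_eq_fintype_card]
        exact hL c hcL
      obtain ⟨e⟩ := this
      refine ⟨fun v => if h : v ∈ c.supp then e ⟨v, h⟩ else 0, fun _ a ha b hb hab => ?_⟩
      simp only [ha, hb, dif_pos] at hab
      exact congrArg Subtype.val (e.injective hab)
    · exact ⟨fun _ => 0, fun h => absurd h hcL⟩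
  choose ι hι using hι
  let data : G.ConnectedComponent → Set (Fin (s + 1)) × Set (Fin (s + 1) × Fin (s + 1)) :=
    fun c => (ι c '' c.supp, {q | ∃ a ∈ c.supp, ∃ b ∈ c.supp, G.Adj a b ∧ q = (ι c a, ι c b)})
  have := Fintype.ofFinite (Set (Fin (s + 1)) × Set (Fin (s + 1) × Fin (s + 1)))
  obtain ⟨c, hcL, c', hcL', hne, he⟩ := Finset.exists_ne_map_eq_of_card_lt_of_maps_to
    (s := L) (t := Finset.univ) (f := data)
    (by rwa [Finset.card_univ, ← Nat.card_eq_fintype_card]) (fun _ _ => Finset.mem_univ _)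
  have h1 : ι c '' c.supp = ι c' '' c'.supp := congrArg Prod.fst he
  have h2 : {q | ∃ a ∈ c.supp, ∃ b ∈ c.supp, G.Adj a b ∧ q = (ι c a, ι c b)} =
      {q | ∃ a ∈ c'.supp, ∃ b ∈ c'.supp, G.Adj a b ∧ q = (ι c' a, ι c' b)} := congrArg Prod.snd he
  obtain ⟨x0, hx0⟩ := c.nonempty_supp
  have hφ : ∀ v : V, ∃ u : c.supp, v ∈ c'.supp → ι c u = ι c' v := by
    intro v
    by_cases hv : v ∈ c'.supp
    · obtain ⟨u, hu, he⟩ : ι c' v ∈ ι c '' c.supp := h1 ▸ ⟨v, hv, rfl⟩
      exact ⟨⟨u, hu⟩, fun _ => he⟩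
    · exact ⟨⟨x0, hx0⟩, fun h => absurd h hv⟩
  choose φ hφ using hφ
  refine ⟨c, hcL, c', hcL', hne, φ, ?_, ?_, ?_⟩
  · intro a ha b hb hab
    exact hι c' hcL' ha hb (by rw [← hφ a ha, ← hφ b hb, hab])
  · intro b
    obtain ⟨v, hv, he⟩ : ι c b ∈ ι c' '' c'.supp := h1 ▸ ⟨b, b.2, rfl⟩
    exact ⟨v, hv, Subtype.ext (hι c hcL (φ v).2 b.2 ((hφ v hv).trans he))⟩
  · intro v hv v' hv' hvv
    have : (ι c' v, ι c' v') ∈
        {q | ∃ a ∈ c.supp, ∃ b ∈ c.supp, G.Adj a b ∧ q = (ι c a, ι c b)} :=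
      h2 ▸ ⟨v, hv, v', hv', hvv, rfl⟩
    obtain ⟨a, ha, b, hb, hab, he⟩ := this
    simp only [Prod.mk.injEq] at he
    rw [hι c hcL (φ v).2 ha ((hφ v hv).trans he.1), hι c hcL (φ v').2 hb ((hφ v' hv').trans he.2)]
    exact hab

theorem exists_period (hc : ∀ H ∈ F, H.2.Connected) (he : ∀ H ∈ F, H.2 ≠ ⊥) {h c : ℕ}
    (hh : CliqueBound F h) (hcc : EdgeBound F c) {γ ε : ℝ} (hγ : 0 ≤ γ) (hε : 0 < ε)
    (hfr : ∃ᶠ n in atTop, (2 * Mminus F n : ℝ) ≤ γ * n) :
    ∃ m : ℕ, 0 < m ∧ ∀ k : ℕ, (2 * Mminus F (k * m) : ℝ) ≤ (γ + 2 * ε) * (k * m) := by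
  classical
  obtain ⟨s, hs⟩ := exists_nat_ge ((h * h * c : ℝ) / ε)
  have hs' : (h * h * c : ℝ) ≤ ε * s := by
    rw [div_le_iff₀ hε] at hs
    linarith
  set f := Nat.card (Set (Fin (s + 1)) × Set (Fin (s + 1) × Fin (s + 1))) with hf
  obtain ⟨n0, hn0⟩ := exists_nat_gt (((s + 1) * f * (γ + ε) : ℝ) / ε)
  obtain ⟨n, hn, hnle⟩ := (hfr.and_eventually (eventually_ge_atTop n0)).exists
  have hn1 : ((s + 1) * f * (γ + ε) : ℝ) < ε * n := by
    rw [div_lt_iff₀ hε] at hn0
    have : (n0 : ℝ) ≤ n := by exact_mod_cast hnle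
    nlinarith
  obtain ⟨G, hG, hd⟩ := exists_Mminus he n
  have := Fintype.ofFinite G.ConnectedComponent
  let L : Finset G.ConnectedComponent := Finset.univ.filter fun c =>
    (dd (G.induce c.supp) : ℝ) ≤ (γ + ε) * Nat.card c.supp
  have hpos : ∀ c : G.ConnectedComponent, 0 < Nat.card c.supp := fun c => by
    have : Nonempty c.supp := c.nonempty_supp.to_subtype
    exact Nat.card_pos
  by_cases hbig : ∃ c ∈ L, s ≤ Nat.card c.supp
  · obtain ⟨c0, hc0, hs0⟩ := hbig
    refine ⟨_, hpos c0, fun k => ?_⟩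
    have h1 : (2 * Mminus F (k * Nat.card c0.supp) : ℝ) ≤
        k * dd (G.induce c0.supp) + h * h * (c * k) := by
      exact_mod_cast Mminus_copies hc (edgeMax_comp hc hG c0) (conn_comp G c0) hh hcc k
    have h2 : (dd (G.induce c0.supp) : ℝ) ≤ (γ + ε) * Nat.card c0.supp :=
      (Finset.mem_filter.1 hc0).2
    have h3 : (s : ℝ) ≤ Nat.card c0.supp := by exact_mod_cast hs0
    have hk : (0 : ℝ) ≤ k := Nat.cast_nonneg k
    have h4 := mul_le_mul_of_nonneg_left h2 hk
    have h5 := mul_le_mul_of_nonneg_left (hs'.trans (mul_le_mul_of_nonneg_left h3 hε.le)) hk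
    nlinarith
  · push Not at hbig
    by_cases hL : f < L.card
    · obtain ⟨c0, hc0, c', -, hne, φ, h1, h2, h3⟩ := exists_twin G s L
        (fun c hc => by have := hbig c hc; omega) hL
      refine ⟨_, hpos c0, fun k => ?_⟩
      have h4 : (2 * Mminus F (k * Nat.card c0.supp) : ℝ) ≤ k * dd (G.induce c0.supp) := by
        exact_mod_cast Mminus_copies_unjoinable hc (edgeMax_comp hc hG c0) (conn_comp G c0) hh
          (unjoinable_of_twin hc hG hne φ h1 h2 h3) k
      have h5 : (dd (G.induce c0.supp) : ℝ) ≤ (γ + ε) * Nat.card c0.supp :=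
        (Finset.mem_filter.1 hc0).2
      have hk : (0 : ℝ) ≤ k := Nat.cast_nonneg k
      have h6 := mul_le_mul_of_nonneg_left h5 hk
      have h7 : (0 : ℝ) ≤ ε * (k * Nat.card c0.supp) := by positivity
      nlinarith
    · exfalso
      push Not at hL
      have h1 : (∑ c : G.ConnectedComponent, (Nat.card c.supp : ℝ)) = n := by
        have := sum_card_comp G
        rw [Nat.card_eq_fintype_card (α := Fin n), Fintype.card_fin] at this
        exact_mod_cast this
      have h2 : (∑ c : G.ConnectedComponent, (dd (G.induce c.supp) : ℝ)) ≤ γ * n := by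
        have h3 : ((∑ c : G.ConnectedComponent, dd (G.induce c.supp) : ℕ) : ℝ) ≤ dd G := by
          exact_mod_cast sum_dd_comp G
        rw [hd] at h3
        push_cast at h3
        linarith
      have h3 : ∀ c : G.ConnectedComponent, (γ + ε) * (Nat.card c.supp : ℝ) ≤
          dd (G.induce c.supp) + if c ∈ L then (γ + ε) * (s + 1) else 0 := by
        intro c
        split_ifs with hcL
        · have h4 : (Nat.card c.supp : ℝ) ≤ s + 1 := by
            have := hbig c hcL
            exact_mod_cast (by omega : Nat.card c.supp ≤ s + 1)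
          have h5 := mul_le_mul_of_nonneg_left h4 (by linarith : 0 ≤ γ + ε)
          have h6 : (0 : ℝ) ≤ dd (G.induce c.supp) := Nat.cast_nonneg _
          linarith
        · simp only [L, Finset.mem_filter, Finset.mem_univ, true_and, not_le] at hcL
          linarith
      have h4 := Finset.sum_le_sum fun c (_ : c ∈ Finset.univ) => h3 c
      rw [← Finset.mul_sum, h1, Finset.sum_add_distrib, Finset.sum_ite_mem, Finset.univ_inter,
        Finset.sum_const, nsmul_eq_mul] at h4
      have h5 : (L.card : ℝ) ≤ f := by exact_mod_cast hL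
      have h6 := mul_le_mul_of_nonneg_right h5 (by positivity : 0 ≤ (γ + ε) * (s + 1))
      nlinarith

theorem eventually_le_of_frequently (hF : F.Nonempty) (hc : ∀ H ∈ F, H.2.Connected)
    (he : ∀ H ∈ F, H.2 ≠ ⊥) {γ ε : ℝ} (hγ : 0 ≤ γ) (hε : 0 < ε)
    (hfr : ∃ᶠ n in atTop, (Mminus F n : ℝ) / n ≤ γ) :
    ∀ᶠ n in atTop, (Mminus F n : ℝ) / n ≤ γ + 2 * ε := by
  obtain ⟨c, h, hcc, hh⟩ := exists_bounds hF
  obtain ⟨m, hm, hk⟩ := exists_period hc he hh hcc (γ := 2 * γ) (by linarith) hε (by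
    refine (hfr.and_eventually (eventually_gt_atTop 0)).mono ?_
    rintro n ⟨h1, h2⟩
    rw [div_le_iff₀ (by exact_mod_cast h2)] at h1
    linarith)
  obtain ⟨n0, hn0⟩ := exists_nat_ge ((h * m : ℝ) / ε)
  filter_upwards [eventually_ge_atTop n0, eventually_gt_atTop 0] with n hn hn'
  have h1 := Mminus_add_le hc he hh (n / m * m) (n % m)
  rw [Nat.div_add_mod'] at h1
  have h2 : (Mminus F n : ℝ) ≤ Mminus F (n / m * m) + h * m := by
    have := Nat.mul_le_mul_left h (Nat.mod_lt n hm).le
    exact_mod_cast (by omega : Mminus F n ≤ Mminus F (n / m * m) + h * m)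
  have h3 := hk (n / m)
  have h4 : ((n / m : ℕ) : ℝ) * m ≤ n := by exact_mod_cast Nat.div_mul_le_self n m
  have h5 := mul_le_mul_of_nonneg_left h4 (by linarith : 0 ≤ 2 * γ + 2 * ε)
  have h6 : (h * m : ℝ) ≤ ε * n := by
    rw [div_le_iff₀ hε] at hn0
    have : (n0 : ℝ) ≤ n := by exact_mod_cast hn
    nlinarith
  rw [div_le_iff₀ (by exact_mod_cast hn')]
  nlinarith

theorem tendsto_of_freq {u : ℕ → ℝ} {c : ℝ} (h0 : ∀ n, 0 ≤ u n) (hc : ∀ n, u n ≤ c)
    (h : ∀ γ ε : ℝ, 0 ≤ γ → 0 < ε → (∃ᶠ n in atTop, u n ≤ γ) → ∀ᶠ n in atTop, u n ≤ γ + 2 * ε) :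
    ∃ a, Tendsto u atTop (𝓝 a) := by
  have hb : IsBoundedUnder (· ≥ ·) atTop u := isBoundedUnder_of ⟨0, h0⟩
  have hb' : IsBoundedUnder (· ≤ ·) atTop u := isBoundedUnder_of ⟨c, hc⟩
  have hL : 0 ≤ liminf u atTop :=
    le_liminf_of_le hb'.isCoboundedUnder_ge (Eventually.of_forall h0)
  refine ⟨liminf u atTop, tendsto_order.2 ⟨fun a ha => eventually_lt_of_lt_liminf ha hb,
    fun a ha => ?_⟩⟩
  set δ := (a - liminf u atTop) / 4 with hδ
  have hδ0 : 0 < δ := by rw [hδ]; linarith
  have h1 : ∃ᶠ n in atTop, u n < liminf u atTop + δ :=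
    frequently_lt_of_liminf_lt hb'.isCoboundedUnder_ge (by linarith)
  filter_upwards [h (liminf u atTop + δ) δ (by linarith) hδ0 (h1.mono fun _ h => h.le)] with n hn
  linarith

theorem Mplus_div_le (he : ∀ H ∈ F, H.2 ≠ ⊥) {c : ℕ} (hcc : EdgeBound F c) (n : ℕ) :
    (Mplus F n : ℝ) / n ≤ c := by
  obtain ⟨G, hG, hd⟩ := exists_Mplus he n
  have h1 := hcc _ G hG.1
  rw [Nat.card_eq_fintype_card, Fintype.card_fin] at h1
  have h2 : (Mplus F n : ℝ) ≤ c * n := by exact_mod_cast (by omega : Mplus F n ≤ c * n)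
  exact div_le_of_le_mul₀ (Nat.cast_nonneg _) (Nat.cast_nonneg _) h2

theorem Mminus_tendsto (hF : F.Nonempty) (hc : ∀ H ∈ F, H.2.Connected)
    (he : ∀ H ∈ F, H.2 ≠ ⊥) : ∃ a, Tendsto (fun n => (Mminus F n : ℝ) / n) atTop (𝓝 a) := by
  obtain ⟨c, h, hcc, -⟩ := exists_bounds hF
  refine tendsto_of_freq (c := c) (fun n => by positivity) (fun n => ?_)
    fun γ ε hγ hε => eventually_le_of_frequently hF hc he hγ hε
  refine le_trans ?_ (Mplus_div_le he hcc n)
  gcongr
  exact_mod_cast Mminus_le_Mplus he n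

theorem Mplus_tendsto (hF : F.Nonempty) (hc : ∀ H ∈ F, H.2.Connected)
    (he : ∀ H ∈ F, H.2 ≠ ⊥) : ∃ b, Tendsto (fun n => (Mplus F n : ℝ) / n) atTop (𝓝 b) := by
  obtain ⟨c, h, hcc, -⟩ := exists_bounds hF
  have hs : Subadditive fun n => -(Mplus F n : ℝ) := by
    intro m n
    have : (Mplus F m + Mplus F n : ℝ) ≤ Mplus F (m + n) := by
      exact_mod_cast Mplus_superadd hc he m n
    linarith
  have h1 := hs.tendsto_lim ⟨-c, by
    rintro _ ⟨n, rfl⟩
    have := Mplus_div_le he hcc n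
    simp only [neg_div]
    linarith⟩
  refine ⟨-hs.lim, ?_⟩
  simpa [neg_div] using h1.neg

theorem gap_tendsto (he : ∀ H ∈ F, H.2 ≠ ⊥) {a b : ℝ}
    (ha : Tendsto (fun n => (Mminus F n : ℝ) / n) atTop (𝓝 a))
    (hb : Tendsto (fun n => (Mplus F n : ℝ) / n) atTop (𝓝 b)) :
    Tendsto (fun n => (gap F n : ℝ) / n) atTop (𝓝 (b - a)) := by
  refine (hb.sub ha).congr fun n => ?_
  rw [gap, Nat.cast_sub (Mminus_le_Mplus he n), sub_div]

end Pool.Agent.MP_9d78a0_co

end MrgPart3

-- marker of a merged file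
example : 731051 + 703959 = 731051 + 703959 := rfl
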